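import Mathlib
import Pool.Agent.D0H82.SX.StmW

set_option autoImplicit false

/-! Module BYP of project SX (helper82): partial integration. -/

namespace Pool.Agent.D0H58.SX

open Complex Filter Topology MeasureTheory Set


theorem byp (w : ℝ → ℂ) (F : ℝ → ℂ) (S K : ℝ) (hw : ContDiff ℝ 1 w) (hF : Continuous F) (hS : 0 < S)
  (hK : ∀ x ∈ Icc (0:ℝ) 1, ‖w x‖ ≤ K ∧ ‖deriv w x‖ ≤ K) :
  ‖∫ t in (0:ℝ)..S, w (t / S) * F t‖ ≤ K * ‖∫ t in (0:ℝ)..S, F t‖ + K * (S⁻¹ * ∫ t in (0:ℝ)..S, ‖∫ u in (0:ℝ)..t, F u‖) := by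
  have hK0 : 0 ≤ K := le_trans (norm_nonneg _) (hK 0 ⟨le_rfl, zero_le_one⟩).1
  have hdw : Continuous (deriv w) := hw.continuous_deriv le_rfl
  have hwd : Differentiable ℝ w := hw.differentiable (by norm_num)
  set R : ℝ → ℂ := fun t => ∫ u in (0:ℝ)..t, F u with hR
  have hRd : ∀ t, HasDerivAt R (F t) t := fun t =>
    intervalIntegral.integral_hasDerivAt_right (hF.intervalIntegrable _ _)
      (hF.stronglyMeasurableAtFilter _ _) hF.continuousAt
  have hRc : Continuous R := continuous_iff_continuousAt.2 fun t => (hRd t).continuousAt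
  have hud : ∀ t, HasDerivAt (fun t : ℝ => w (t / S)) (deriv w (t / S) * ((S⁻¹ : ℝ) : ℂ)) t := by
    intro t
    have h1 : HasDerivAt (fun t : ℝ => t / S) (S⁻¹) t := by
      simpa [div_eq_mul_inv] using (hasDerivAt_id t).mul_const S⁻¹
    have h2 := (hwd (t / S)).hasDerivAt.scomp t h1
    simpa [Function.comp_def, mul_comm] using h2
  have hu'c : Continuous (fun t : ℝ => deriv w (t / S) * ((S⁻¹ : ℝ) : ℂ)) :=
    (hdw.comp (continuous_id.div_const S)).mul continuous_const
  have key := intervalIntegral.integral_mul_deriv_eq_deriv_mul (a := 0) (b := S)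
    (u := fun t : ℝ => w (t / S)) (v := R) (u' := fun t : ℝ => deriv w (t / S) * ((S⁻¹ : ℝ) : ℂ)) (v' := F)
    (fun t _ => hud t) (fun t _ => hRd t) (hu'c.intervalIntegrable _ _) (hF.intervalIntegrable _ _)
  have hR0 : R 0 = 0 := by simp [hR]
  rw [key, hR0, mul_zero, sub_zero]
  refine (norm_sub_le _ _).trans (add_le_add ?_ ?_)
  · rw [norm_mul]
    exact mul_le_mul_of_nonneg_right (hK _ (by rw [div_self hS.ne']; exact ⟨zero_le_one, le_rfl⟩)).1 (norm_nonneg _)
  · calc ‖∫ t in (0:ℝ)..S, deriv w (t / S) * ((S⁻¹ : ℝ) : ℂ) * R t‖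
        ≤ ∫ t in (0:ℝ)..S, (K * S⁻¹) * ‖R t‖ := by
          apply intervalIntegral.norm_integral_le_of_norm_le hS.le
          · refine (ae_of_all _ fun t ht => ?_)
            rw [norm_mul, norm_mul, Complex.norm_real, Real.norm_eq_abs, abs_of_pos (inv_pos.2 hS)]
            refine mul_le_mul_of_nonneg_right (mul_le_mul_of_nonneg_right (hK _ ⟨?_, ?_⟩).2 (inv_pos.2 hS).le) (norm_nonneg _)
            · exact div_nonneg ht.1.le hS.le
            · rw [div_le_one hS]; exact ht.2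
          · exact (continuous_const.mul hRc.norm).intervalIntegrable _ _
      _ = K * (S⁻¹ * ∫ t in (0:ℝ)..S, ‖R t‖) := by
          rw [intervalIntegral.integral_const_mul]; ring

theorem t_BYP : Pool.Agent.D0H82.SX.S_BYP := byp

end Pool.Agent.D0H58.SX
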