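import Mathlib
set_option autoImplicit false
open Complex Filter Topology MeasureTheory Set
open scoped FourierTransform

namespace Pool.Agent.D0H58.SX.Gv2

/-- the Fourier integral of `w` on `[0, 1]` -/
noncomputable def W (w : ℝ → ℂ) (ξ : ℝ) : ℂ := ∫ x in (0:ℝ)..1, w x * Complex.exp (I * (ξ : ℂ) * (x : ℂ))

theorem W_cont (w : ℝ → ℂ) (hw : Continuous w) : Continuous (W w) := by
  unfold W
  apply intervalIntegral.continuous_parametric_intervalIntegral_of_continuous'
  simp only [Function.uncurry_def]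
  exact (hw.comp continuous_snd).mul (by fun_prop)

theorem W_zero (w : ℝ → ℂ) (hw : Continuous w) (h : ∀ ξ, W w ξ = 0) : ∀ x ∈ Icc (0:ℝ) 1, w x = 0 := by
  have h1 : ∀ x ∈ Ioo (0:ℝ) 1, w x = 0 := by
    intro x hx
    set g : ℝ → ℂ := (Ioc (0:ℝ) 1).indicator w with hg
    have hgi : Integrable g := by
      rw [hg, integrable_indicator_iff measurableSet_Ioc]
      exact (hw.integrableOn_Icc (a := 0) (b := 1)).mono_set Ioc_subset_Icc_self
    have hF : 𝓕 g = 0 := by
      ext v
      rw [Real.fourier_real_eq_integral_exp_smul]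
      have e1 : (fun x : ℝ => Complex.exp (↑(-2 * Real.pi * x * v) * I) • g x) =
          (Ioc (0:ℝ) 1).indicator (fun x => w x * Complex.exp (I * ((-2 * Real.pi * v : ℝ) : ℂ) * (x : ℂ))) := by
        ext x
        by_cases hx : x ∈ Ioc (0:ℝ) 1
        · simp only [hg, Set.indicator_of_mem hx, smul_eq_mul]
          rw [mul_comm]
          congr 2
          push_cast
          ring
        · simp only [hg, Set.indicator_of_notMem hx, smul_zero]
      rw [e1, integral_indicator measurableSet_Ioc, ← intervalIntegral.integral_of_le zero_le_one]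
      exact h _
    have hcont : ContinuousAt g x := by
      have : g =ᶠ[𝓝 x] w := by
        filter_upwards [Ioo_mem_nhds hx.1 hx.2] with y hy
        exact Set.indicator_of_mem (Ioo_subset_Ioc_self hy) _
      exact hw.continuousAt.congr this.symm
    have hinv := hgi.fourierInv_fourier_eq (by rw [hF]; exact integrable_zero _ _ _) hcont
    rw [hF] at hinv
    have h2 : g x = w x := Set.indicator_of_mem (Ioo_subset_Ioc_self hx) _
    rw [← h2, ← hinv, Real.fourierInv_eq']
    simp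
  intro x hx
  have h2 : closure (Ioo (0:ℝ) 1) = Icc 0 1 := closure_Ioo (by norm_num)
  have h3 : IsClosed {x : ℝ | w x = 0} := isClosed_eq hw continuous_const
  exact (h3.closure_subset_iff.2 h1) (h2 ▸ hx)

theorem exists_xi (w : ℝ → ℂ) (hw : Continuous w) (h0 : ∃ x ∈ Icc (0:ℝ) 1, w x ≠ 0) :
    ∃ ξ : ℝ, W w ξ * (1 - Complex.exp (I * (ξ : ℂ))) ≠ 0 := by
  by_contra hcon
  push Not at hcon
  obtain ⟨x, hx, hwx⟩ := h0
  refine hwx (W_zero w hw (fun ξ => ?_) x hx)
  have hcl : IsClosed {ξ : ℝ | W w ξ = 0} := isClosed_eq (W_cont w hw) continuous_const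
  have hd : Dense {ξ : ℝ | Complex.exp (I * (ξ : ℂ)) ≠ 1} := by
    have hc : ({ξ : ℝ | Complex.exp (I * (ξ : ℂ)) = 1}).Countable := by
      refine (Set.countable_range (fun n : ℤ => (n : ℝ) * (2 * Real.pi))).mono ?_
      intro ξ hξ
      obtain ⟨n, hn⟩ := Complex.exp_eq_one_iff.1 hξ
      refine ⟨n, ?_⟩
      have h2 : I * (ξ : ℂ) = I * ((n * (2 * Real.pi) : ℝ) : ℂ) := by
        rw [hn]; push_cast; ring
      have h3 := mul_left_cancel₀ Complex.I_ne_zero h2
      exact (Complex.ofReal_injective h3).symm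
    exact hc.dense_compl ℝ
  have hsub : {ξ : ℝ | Complex.exp (I * (ξ : ℂ)) ≠ 1} ⊆ {ξ : ℝ | W w ξ = 0} := by
    intro ξ hξ
    rcases mul_eq_zero.1 (hcon ξ) with h | h
    · exact h
    · exact absurd (sub_eq_zero.1 h).symm hξ
  exact (hcl.closure_subset_iff.2 hsub) (hd ξ)

/-- change of variables -/
theorem W_scale (w : ℝ → ℂ) (S θ : ℝ) (hS : 0 < S) :
    (∫ t in (0:ℝ)..S, w (t / S) * Complex.exp (I * (t : ℂ) * (θ : ℂ))) = (S : ℂ) * W w (S * θ) := by
  have h := intervalIntegral.integral_comp_div (a := 0) (b := S) (c := S)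
    (fun x : ℝ => w x * Complex.exp (I * ((S * θ : ℝ) : ℂ) * (x : ℂ))) hS.ne'
  rw [zero_div, div_self hS.ne'] at h
  unfold W
  rw [← Complex.real_smul, ← h]
  refine intervalIntegral.integral_congr fun t _ => ?_
  have hS' : (S : ℂ) ≠ 0 := Complex.ofReal_ne_zero.2 hS.ne'
  have e : I * (t : ℂ) * (θ : ℂ) = I * ((S * θ : ℝ) : ℂ) * ((t / S : ℝ) : ℂ) := by
    push_cast
    field_simp
  show w (t / S) * Complex.exp (I * (t : ℂ) * (θ : ℂ)) = w (t / S) * Complex.exp (I * ((S * θ : ℝ) : ℂ) * ((t / S : ℝ) : ℂ))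
  rw [e]

/-- the main analytic part -/
theorem core (w : ℝ → ℂ) (hw : Continuous w) (h0 : ∃ x ∈ Icc (0:ℝ) 1, w x ≠ 0) :
    ∃ (s : Bool) (c x₁ x₂ S₀ : ℝ), 0 < c ∧ 0 < x₁ ∧ x₁ < x₂ ∧ 1 ≤ S₀ ∧
    ∀ (S N : ℝ), S₀ ≤ S → 0 < N → x₁ * S ≤ N → N ≤ x₂ * S →
      ∀ θ : ℝ, θ = (if s then 1 else -1) * (Real.log (N + 1) - Real.log N) →
      c ≤ (N * (N + 1)) ^ (-(1 / 2) : ℝ) * ‖(∫ t in (0:ℝ)..S, w (t / S) * Complex.exp (I * (t : ℂ) * (θ : ℂ))) *
        (1 - Complex.exp (I * (S : ℂ) * (θ : ℂ)))‖ := by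
  obtain ⟨ξ₀, hξ⟩ := exists_xi w hw h0
  set H : ℝ → ℂ := fun ξ => W w ξ * (1 - Complex.exp (I * (ξ : ℂ))) with hH
  have hHc : Continuous H := (W_cont w hw).mul (by fun_prop)
  have hξ0 : ξ₀ ≠ 0 := by
    rintro rfl
    apply hξ
    simp
  have hpos : 0 < ‖H ξ₀‖ := norm_pos_iff.2 hξ
  have hev : ∀ᶠ ξ in 𝓝 ξ₀, ‖H ξ₀‖ / 2 < ‖H ξ‖ :=
    (hHc.norm.continuousAt (x := ξ₀)).eventually (lt_mem_nhds (by linarith))
  obtain ⟨δ, hδ, hδH⟩ := Metric.eventually_nhds_iff.1 hev
  set a := |ξ₀| with ha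
  have ha0 : 0 < a := abs_pos.2 hξ0
  set η := min (δ / 4) (a / 2) with hη
  have hη0 : 0 < η := lt_min (by linarith) (by linarith)
  have hη1 : η ≤ δ / 4 := min_le_left _ _
  have hη2 : η ≤ a / 2 := min_le_right _ _
  have hm : 0 < a - η := by linarith
  have hx1 : 0 < 1 / (a + η) := by positivity
  have hx12 : 1 / (a + η) < 1 / (a - η) := one_div_lt_one_div_of_lt hm (by linarith)
  have hx2 : 0 < 1 / (a - η) := by positivity
  refine ⟨decide (0 < ξ₀), (‖H ξ₀‖ / 2) / (1 / (a - η) + 1), 1 / (a + η), 1 / (a - η),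
    max 1 (4 * (a + η) ^ 2 / δ), by positivity, hx1, hx12, le_max_left _ _, ?_⟩
  intro S N hS hN h1 h2 θ hθ
  have hS1 : 1 ≤ S := (le_max_left _ _).trans hS
  have hS2 : 4 * (a + η) ^ 2 / δ ≤ S := (le_max_right _ _).trans hS
  have hS0 : 0 < S := by linarith
  set L := Real.log (N + 1) - Real.log N with hL
  have hL1 : L ≤ 1 / N := by
    rw [hL, ← Real.log_div (by positivity) hN.ne']
    refine (Real.log_le_sub_one_of_pos (by positivity)).trans (le_of_eq ?_)
    field_simp
    ring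
  have hL2 : 1 / (N + 1) ≤ L := by
    have : Real.log N - Real.log (N + 1) ≤ N / (N + 1) - 1 := by
      rw [← Real.log_div hN.ne' (by positivity)]
      exact Real.log_le_sub_one_of_pos (by positivity)
    have h3 : N / (N + 1) - 1 = - (1 / (N + 1)) := by
      field_simp
      ring
    rw [h3] at this
    rw [hL]
    linarith
  -- S / N is near a
  have hq1 : S / N ≤ a + η := by
    rw [div_le_iff₀ hN]
    have := mul_le_mul_of_nonneg_left h1 (by positivity : (0:ℝ) ≤ a + η)
    calc S = (a + η) * (1 / (a + η) * S) := by field_simp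
      _ ≤ _ := this
  have hq2 : a - η ≤ S / N := by
    rw [le_div_iff₀ hN]
    have := mul_le_mul_of_nonneg_left h2 hm.le
    calc (a - η) * N ≤ (a - η) * (1 / (a - η) * S) := this
      _ = S := by field_simp
  have hq3 : |S * L - S / N| ≤ δ / 4 := by
    have e1 : S * L ≤ S / N := by
      have := mul_le_mul_of_nonneg_left hL1 hS0.le
      calc S * L ≤ S * (1 / N) := this
        _ = S / N := by ring
    have e2 : S / N - S * L ≤ δ / 4 := by
      have := mul_le_mul_of_nonneg_left hL2 hS0.le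
      have e3 : S / N - S * (1 / (N + 1)) ≤ (S / N) ^ 2 / S := by
        have : S / N - S * (1 / (N + 1)) = S / (N * (N + 1)) := by
          field_simp
          ring
        rw [this]
        have : (S / N) ^ 2 / S = S / (N * N) := by
          field_simp
        rw [this]
        apply div_le_div_of_nonneg_left hS0.le (by positivity)
        nlinarith
      have e4 : (S / N) ^ 2 / S ≤ (a + η) ^ 2 / S := by
        apply div_le_div_of_nonneg_right _ hS0.le
        exact pow_le_pow_left₀ (by positivity) hq1 2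
      have e5 : (a + η) ^ 2 / S ≤ δ / 4 := by
        rw [div_le_iff₀ hS0]
        rw [div_le_iff₀ hδ] at hS2
        nlinarith
      linarith
    rw [abs_le]
    constructor <;> linarith
  have hnear : |S * θ - ξ₀| < δ := by
    have hcase : S * θ - ξ₀ = (if 0 < ξ₀ then 1 else -1) * (S * L - a) := by
      by_cases hp : 0 < ξ₀
      · simp only [hp, decide_true, if_true, one_mul] at hθ ⊢
        rw [hθ, ha, abs_of_pos hp]
      · have hn : ξ₀ < 0 := lt_of_le_of_ne (not_lt.1 hp) hξ0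
        simp only [hp, decide_false, if_false] at hθ ⊢
        simp only [Bool.false_eq_true, if_false] at hθ
        rw [hθ, ha, abs_of_neg hn]
        ring
    rw [hcase, abs_mul]
    have : |(if 0 < ξ₀ then (1:ℝ) else -1)| = 1 := by
      split_ifs <;> simp
    rw [this, one_mul]
    have e1 : |S * L - a| ≤ |S * L - S / N| + |S / N - a| := by
      have : S * L - a = (S * L - S / N) + (S / N - a) := by ring
      rw [this]
      exact abs_add_le _ _
    have e2 : |S / N - a| ≤ η := by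
      rw [abs_le]
      constructor <;> linarith
    linarith
  have hHθ : ‖H ξ₀‖ / 2 ≤ ‖H (S * θ)‖ := (hδH (by rwa [Real.dist_eq])).le
  have hexp : (∫ t in (0:ℝ)..S, w (t / S) * Complex.exp (I * (t : ℂ) * (θ : ℂ))) *
        (1 - Complex.exp (I * (S : ℂ) * (θ : ℂ))) = (S : ℂ) * H (S * θ) := by
    rw [W_scale w S θ hS0, hH]
    simp only
    push_cast
    rw [mul_assoc, mul_assoc I]
  have hnS : ‖(S : ℂ) * H (S * θ)‖ = S * ‖H (S * θ)‖ := by
    rw [norm_mul, Complex.norm_real, Real.norm_of_nonneg hS0.le]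
  rw [hexp, hnS]
  have hwt : 1 / (N + 1) ≤ (N * (N + 1)) ^ (-(1 / 2) : ℝ) := by
    have e1 : ((N + 1) * (N + 1)) ^ (-(1 / 2) : ℝ) = 1 / (N + 1) := by
      rw [Real.rpow_neg (by positivity), ← Real.sqrt_eq_rpow, Real.sqrt_mul_self (by positivity), one_div]
    rw [← e1]
    apply Real.rpow_le_rpow_of_nonpos (by positivity) (by nlinarith) (by norm_num)
  have hfin : 1 / (1 / (a - η) + 1) ≤ 1 / (N + 1) * S := by
    rw [div_mul_eq_mul_div, one_mul, div_le_div_iff₀ (by positivity) (by positivity), one_mul]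
    nlinarith
  calc (‖H ξ₀‖ / 2) / (1 / (a - η) + 1) = (1 / (1 / (a - η) + 1)) * (‖H ξ₀‖ / 2) := by ring
    _ ≤ (1 / (N + 1) * S) * ‖H (S * θ)‖ := mul_le_mul hfin hHθ (by positivity) (by positivity)
    _ = 1 / (N + 1) * (S * ‖H (S * θ)‖) := by ring
    _ ≤ _ := mul_le_mul_of_nonneg_right hwt (by positivity)

end Pool.Agent.D0H58.SX.Gv2
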