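import Pool.Agent.D0H82.SX.StmW
import Pool.Agent.D0H58.SX.Gv20

set_option autoImplicit false

/-! Module GV2 of project SX (helper82): the size of the coefficients. -/

namespace Pool.Agent.D0H58.SX

open Complex MeasureTheory Set Pool.Agent.TH612.CF Pool.Agent.TH612.GS Pool.Agent.D0H82.SX

theorem thv_prod {k : ℕ} (ν : Fin k ⊕ Fin k → ℕ) (h1 : ∀ i, 1 ≤ ν i) :
    thv ν = Real.log ((∏ j, ν (Sum.inr j) : ℕ) : ℝ) - Real.log ((∏ j, ν (Sum.inl j) : ℕ) : ℝ) := by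
  unfold thv
  push_cast
  rw [Real.log_prod (fun j _ => by have := h1 (Sum.inr j); positivity),
    Real.log_prod (fun j _ => by have := h1 (Sum.inl j); positivity)]

theorem wt_prod {k : ℕ} (ν : Fin k ⊕ Fin k → ℕ) :
    wt ν = (((∏ j, ν (Sum.inl j) : ℕ) : ℝ) * ((∏ j, ν (Sum.inr j) : ℕ) : ℝ)) ^ (-(1 / 2) : ℝ) := by
  unfold wt
  rw [Fintype.prod_sum_type]
  push_cast
  rfl

theorem t_GV2 : S_GV2 := by
  intro w hw h0
  obtain ⟨s, c, x₁, x₂, S₀, hc, hx1, hx12, hS0, H⟩ := Gv2.core w hw h0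
  refine ⟨s, c, x₁, x₂, S₀, hc, hx1, hx12, hS0, ?_⟩
  intro k S ν N hS h1 hadj hN1 hN2
  have hSpos : 0 < S := by linarith
  have hNpos : (0:ℝ) < N := lt_of_lt_of_le (by positivity) hN1
  have hθ : thv ν = (if s then 1 else -1) * (Real.log ((N:ℝ) + 1) - Real.log (N:ℝ)) := by
    rw [thv_prod ν h1]
    cases s with
    | true =>
      obtain ⟨e1, e2⟩ := hadj.1 rfl
      rw [e1, e2]
      push_cast
      simp
    | false =>
      obtain ⟨e1, e2⟩ := hadj.2 rfl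
      rw [e1, e2]
      push_cast
      simp
  have hwt : wt ν = ((N:ℝ) * ((N:ℝ) + 1)) ^ (-(1 / 2) : ℝ) := by
    rw [wt_prod ν]
    cases s with
    | true =>
      obtain ⟨e1, e2⟩ := hadj.1 rfl
      rw [e1, e2]
      push_cast
      rfl
    | false =>
      obtain ⟨e1, e2⟩ := hadj.2 rfl
      rw [e1, e2, mul_comm]
      push_cast
      rfl
  have hb := H S N hS hNpos hN1 hN2 (thv ν) hθ
  have hw0 : 0 ≤ wt ν := by
    rw [hwt]
    positivity
  have hn : ‖gw w S ν‖ = wt ν *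
      ‖(∫ t in (0:ℝ)..S, w (t / S) * Complex.exp (I * (t : ℂ) * (thv ν : ℝ))) *
        (1 - Complex.exp (I * (S : ℂ) * (thv ν : ℝ)))‖ := by
    unfold gw
    rw [mul_assoc, norm_mul, Complex.norm_real, Real.norm_of_nonneg hw0]
  rw [hn, hwt]
  exact hb

end Pool.Agent.D0H58.SX
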